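import Mathlib
import Pool.Agent.H68R2.BP.Props2
import Pool.Agent.H166R2.KZ.LStruct
import Pool.Agent.H909R2.KZ.Fam
import Pool.Agent.H9R2.KZ.LFin
import Pool.Agent.H227R2.KZ.LInf
import Pool.Agent.H325R2.KZ.Cc
import Pool.Agent.H227R2.KZ.LSum
import Pool.Agent.H844R2.KZ.LMax

/-!
Task G_main: the final theorem from its ingredients.
-/

open scoped ComplexOrder InnerProductSpace ComplexConjugate Topology
open Finset Filter

noncomputable section

namespace H68R2.BP

open H759R2.Kad H744R2.KZ

namespace GMainaux

variable {H : Type} [NormedAddCommGroup H] [InnerProductSpace ℂ H] [CompleteSpace H]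

/-- words `t^k s` -/
def wd (s t : H →L[ℂ] H) : ℕ → (H →L[ℂ] H)
  | 0 => s
  | k + 1 => t * wd s t k

/-- a partial isometry with initial projection `z` -/
theorem mul_init {z s : H →L[ℂ] H} (hz : IsPr z) (hs : star s * s = z) : s * z = s := by
  obtain ⟨hz1, hz2⟩ := hz
  have h1 : star (s - s * z) * (s - s * z) = 0 := by
    rw [star_sub, star_mul, hz1]
    have e : (star s - z * star s) * (s - s * z) =
        star s * s - (star s * s) * z - z * (star s * s) + z * (star s * s) * z := by
      noncomm_ring
    rw [e, hs, hz2, hz2]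
    abel
  have h2 : s - s * z = 0 := CStarRing.star_mul_self_eq_zero_iff _ |>.mp h1
  exact (sub_eq_zero.mp h2).symm

theorem inf_pinf (M : VonNeumannAlgebra H) {z : H →L[ℂ] H} (hz : IsCP M z) (h : Inf M z) :
    PInf M z := by
  obtain ⟨hzp, hzM, hzc⟩ := hz
  obtain ⟨s, hsM, t, htM, hs, ht, hst⟩ := h
  have hsz : s * z = s := mul_init hzp hs
  have htz : t * z = t := mul_init hzp ht
  have hzs : z * s = s := by rw [hzc s hsM, hsz]
  have hzt : z * t = t := by rw [hzc t htM, htz]
  have hzs' : z * star s = star s := by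
    have := congrArg star hsz
    rwa [star_mul, hzp.1] at this
  have hst0 : star s * t = 0 := by
    have e1 : star s * (s * star s + t * star t) * t = star s * z * t := by rw [hst]
    have e2 : star s * (s * star s + t * star t) * t =
        (star s * s) * (star s * t) + (star s * t) * (star t * t) := by noncomm_ring
    rw [e2, hs, ht] at e1
    have e3 : z * (star s * t) = star s * t := by rw [← mul_assoc, hzs']
    have e4 : star s * t * z = star s * t := by rw [mul_assoc, htz]
    have e5 : star s * z * t = star s * t := by rw [mul_assoc, hzt]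
    rw [e3, e4, e5] at e1
    have e6 : star s * t + star s * t = star s * t + 0 := by rw [e1, add_zero]
    exact add_left_cancel e6
  have hM : ∀ k, wd s t k ∈ M := by
    intro k
    induction k with
    | zero => exact hsM
    | succ k ih => exact mul_mem htM ih
  have hzw : ∀ k, z * wd s t k = wd s t k := by
    intro k
    induction k with
    | zero => exact hzs
    | succ k ih =>
      change z * (t * wd s t k) = t * wd s t k
      rw [← mul_assoc, hzt]
  have hself : ∀ k, star (wd s t k) * wd s t k = z := by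
    intro k
    induction k with
    | zero => exact hs
    | succ k ih =>
      change star (t * wd s t k) * (t * wd s t k) = z
      rw [star_mul]
      have e : star (wd s t k) * star t * (t * wd s t k) =
          star (wd s t k) * ((star t * t) * wd s t k) := by noncomm_ring
      rw [e, ht, hzw, ih]
  have hlt : ∀ i j, i < j → star (wd s t i) * wd s t j = 0 := by
    intro i
    induction i with
    | zero =>
      intro j hj
      obtain ⟨k, rfl⟩ := Nat.exists_eq_succ_of_ne_zero (by omega : j ≠ 0)
      change star s * (t * wd s t k) = 0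
      rw [← mul_assoc, hst0, zero_mul]
    | succ i ih =>
      intro j hj
      obtain ⟨k, rfl⟩ := Nat.exists_eq_succ_of_ne_zero (by omega : j ≠ 0)
      change star (t * wd s t i) * (t * wd s t k) = 0
      rw [star_mul]
      have e : star (wd s t i) * star t * (t * wd s t k) =
          star (wd s t i) * ((star t * t) * wd s t k) := by noncomm_ring
      rw [e, ht, hzw]
      exact ih k (by omega)
  intro n
  refine ⟨fun i => wd s t i, fun i => ⟨hM i, hzw i⟩, fun i j => ?_⟩
  rcases lt_trichotomy (i : ℕ) (j : ℕ) with h | h | h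
  · have hne : i ≠ j := fun e => by rw [e] at h; exact lt_irrefl _ h
    rw [if_neg hne]
    exact hlt i j h
  · have he : i = j := Fin.ext h
    rw [if_pos he, he]
    exact hself j
  · have hne : i ≠ j := fun e => by rw [e] at h; exact lt_irrefl _ h
    rw [if_neg hne]
    have h1 := congrArg star (hlt j i h)
    rwa [star_mul, star_star, star_zero] at h1

end GMainaux

open GMainaux in
theorem prove_G_main (h1 : R_one) (h2 : R_inf) (h3 : G_rc) (h4 : G_fin) (h5 : G_ntr)
    (h6 : G_pinf) (h7 : G_glue) : G_main := by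
  have hstruct : L_struct.{0} := prove_L_struct
    (prove_L_fam prove_L_cc prove_L_max prove_L_sum) prove_L_fin (prove_L_inf prove_L_sum)
  rintro H _ _ _ M ⟨P, hP1, hP2⟩
  have hbp : IsBP M (P : (H →L[ℂ] H) →ₗ[ℂ] (H →L[ℂ] H)) ‖P‖ :=
    ⟨norm_nonneg _, fun x => P.le_opNorm x, hP1, hP2⟩
  have hloc : ∀ w, IsCP M w → w ≠ 0 → ∃ z, IsCP M z ∧ z ≠ 0 ∧ w * z = z ∧ CPr M z := by
    intro w hw hw0
    obtain ⟨z, hz, hz0, hwz, hc⟩ := hstruct H M w hw hw0
    rcases hc with hc | hc | hc
    · exact ⟨z, hz, hz0, hwz, h3 H M z hz (h1 H M _ _ hbp z hz hc)⟩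
    · by_cases hfin : ∃ g, IsCP M g ∧ z * g = g ∧ FinP M g ∧ g ≠ 0
      · obtain ⟨g, hg, hzg, hgf, hg0⟩ := hfin
        obtain ⟨g', hg', hg'0, hgg', hntr⟩ := h5 H M g hg hg0 hgf
        have hzg' : z * g' = g' := by
          rw [← hgg', ← mul_assoc, hzg]
        have hwg' : w * g' = g' := by
          rw [← hzg', ← mul_assoc, hwz]
        refine ⟨g', hg', hg'0, hwg', h4 H M _ _ hbp g' hg' hg'0 ?_ hntr⟩
        intro p hp hpg hab
        refine hc p hp ?_ hab
        rw [← hpg, ← mul_assoc, hzg']
      · push Not at hfin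
        exact ⟨z, hz, hz0, hwz, h3 H M z hz (h2 H M _ _ hbp z hz
          (h6 H M z hz (fun g hg hzg hgf => hfin g hg hzg hgf)))⟩
    · exact ⟨z, hz, hz0, hwz, h3 H M z hz (h2 H M _ _ hbp z hz (inf_pinf M hz hc))⟩
  obtain ⟨Q, hQ1, hQ2, hQ3⟩ := h7 H M hloc
  refine ⟨LinearMap.mkContinuous Q 1 (fun x => by rw [one_mul]; exact hQ1 x), ?_, ?_, ?_⟩
  · intro x
    exact (hQ2 x).1
  · intro m hm
    exact hQ3 m hm (one_mul m)
  · exact LinearMap.mkContinuous_norm_le _ zero_le_one _

end H68R2.BP
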